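import Pool.Agent.H98.ABCR.Stmts

/-! # ABCR: Siegel's lemma for auxiliary polynomials -/

set_option autoImplicit false

namespace Pool.Agent.H98.ABCR

open Finset Polynomial

attribute [local instance] Matrix.seminormedAddCommGroup

private theorem hasse_Rpoly (k r n i : ℕ) (p : ℕ → ℕ → ℤ) :
    (hasseDeriv i (Rpoly k r n p)).eval 1 =
      ∑ j ∈ range (r + 1), ∑ l ∈ range (n + 1), p j l * ((k * l + j).choose i : ℤ) := by
  unfold Rpoly
  rw [map_sum, eval_finsetSum]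
  refine Finset.sum_congr rfl fun j _ => ?_
  rw [map_sum, eval_finsetSum]
  refine Finset.sum_congr rfl fun l _ => ?_
  rw [C_mul_X_pow_eq_monomial, hasseDeriv_monomial, eval_monomial, one_pow, mul_one, mul_comm]

private theorem dvd_of_hasse (M : ℕ) (R : ℤ[X]) (h : ∀ i < M, (hasseDeriv i R).eval 1 = 0) :
    (X - 1 : ℤ[X]) ^ M ∣ R := by
  have e : (X - 1 : ℤ[X]) = X - C 1 := by rw [map_one]
  rw [e, X_sub_C_pow_dvd_iff]
  have : R.comp (X + C 1) = taylor 1 R := by rw [taylor_apply]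
  rw [this, X_pow_dvd_iff]
  intro d hd
  rw [taylor_coeff]
  exact h d hd

private theorem siegel_bound (r : ℕ) (ε : ℝ) (hε : 0 < ε) (hε1 : ε < 1) (k n : ℕ) (hk : r < k)
    (hn : 1 ≤ n) (M : ℕ) (hM : (M : ℝ) ≤ (1 - ε) * ((r : ℝ) + 1) * (n + 1)) (a : ℝ) (ha1 : 1 ≤ a)
    (ha : a ≤ 2 ^ (k * n + r)) :
    ((((r + 1) * (n + 1) : ℕ) : ℝ) * a) ^ ((M : ℝ) / ((((r + 1) * (n + 1) : ℕ) : ℝ) - M)) ≤
      Real.exp ((1 / ε * 10 * (r + 1)) * k * n) := by
  have hn' : (1 : ℝ) ≤ n := by exact_mod_cast hn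
  have hk' : (r : ℝ) + 1 ≤ k := by exact_mod_cast hk
  have hr0 : (0 : ℝ) ≤ r := Nat.cast_nonneg r
  set N : ℝ := (((r + 1) * (n + 1) : ℕ) : ℝ) with hN
  have hN' : N = ((r : ℝ) + 1) * (n + 1) := by rw [hN]; push_cast; ring
  have hN1 : 1 ≤ N := by rw [hN']; nlinarith
  have hN0 : 0 < N := by linarith
  have hMN : (M : ℝ) ≤ (1 - ε) * N := by rw [hN']; linarith [mul_assoc (1 - ε) ((r : ℝ) + 1) (n + 1)]
  have hM0 : (0 : ℝ) ≤ M := Nat.cast_nonneg M
  have hεN : 0 < ε * N := mul_pos hε hN0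
  have hden : ε * N ≤ N - M := by linarith
  have he : (M : ℝ) / (N - M) ≤ 1 / ε := by
    rw [div_le_div_iff₀ (by linarith) hε]
    nlinarith
  have he0 : 0 ≤ (M : ℝ) / (N - M) := div_nonneg hM0 (by linarith)
  have hx1 : 1 ≤ N * a := by nlinarith
  have hx0 : 0 < N * a := by linarith
  have hlog : Real.log (N * a) ≤ 10 * (r + 1) * k * n := by
    rw [Real.log_mul hN0.ne' (by linarith)]
    have h1 : Real.log N ≤ N - 1 := Real.log_le_sub_one_of_pos hN0
    have h2 : Real.log a ≤ (k * n + r : ℕ) := by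
      have h3 : Real.log a ≤ Real.log (2 ^ (k * n + r)) :=
        Real.log_le_log (by linarith) ha
      rw [Real.log_pow] at h3
      have h4 : Real.log 2 ≤ 1 := by
        have := Real.log_two_lt_d9
        linarith
      have h5 : (0 : ℝ) ≤ ((k * n + r : ℕ) : ℝ) := Nat.cast_nonneg _
      nlinarith
    push_cast at h2
    have hkn : (1 : ℝ) ≤ k * n := by nlinarith
    have hrk : (r : ℝ) ≤ k * n := by nlinarith
    have h6 : N ≤ 2 * (r + 1) * (k * n) := by
      rw [hN']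
      have h7 : (n : ℝ) + 1 ≤ 2 * (k * n) := by nlinarith
      nlinarith
    have h8 : (k : ℝ) * n ≤ (r + 1) * (k * n) := by nlinarith
    nlinarith
  have hlog0 : 0 ≤ Real.log (N * a) := Real.log_nonneg hx1
  rw [Real.rpow_def_of_pos hx0]
  apply Real.exp_le_exp.2
  calc Real.log (N * a) * ((M : ℝ) / (N - M)) ≤ Real.log (N * a) * (1 / ε) :=
        mul_le_mul_of_nonneg_left he hlog0
    _ ≤ (10 * (r + 1) * k * n) * (1 / ε) :=
        mul_le_mul_of_nonneg_right hlog (by positivity)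
    _ = (1 / ε * 10 * (r + 1)) * k * n := by ring

theorem sieg_thm : S_SIEG := by
  intro r ε hε hε1
  refine ⟨1 / ε * 10 * (r + 1), by positivity, fun k n hk hn => ?_⟩
  have hexp : 1 ≤ Real.exp ((1 / ε * 10 * (r + 1)) * k * n) := Real.one_le_exp (by positivity)
  set M : ℕ := ⌊(1 - ε) * ((r : ℝ) + 1) * (n + 1)⌋₊ with hMdef
  have hMle : (M : ℝ) ≤ (1 - ε) * ((r : ℝ) + 1) * (n + 1) := Nat.floor_le (by
    have : 0 ≤ 1 - ε := by linarith
    positivity)
  rcases Nat.eq_zero_or_pos M with hM0 | hM0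
  · refine ⟨fun _ _ => 1, ⟨0, by simp, 0, by simp, one_ne_zero⟩, ?_, ?_⟩
    · intro j _ l _
      simpa using hexp
    · rw [hM0, pow_zero]
      exact one_dvd _
  · let A : Matrix (Fin M) (Fin (r + 1) × Fin (n + 1)) ℤ := fun i q =>
      ((k * (q.2 : ℕ) + (q.1 : ℕ)).choose (i : ℕ) : ℤ)
    have hcard : Fintype.card (Fin (r + 1) × Fin (n + 1)) = (r + 1) * (n + 1) := by
      rw [Fintype.card_prod, Fintype.card_fin, Fintype.card_fin]
    have hlt : M < (r + 1) * (n + 1) := by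
      have h1 : (M : ℝ) < ((r + 1) * (n + 1) : ℕ) := by
        push_cast
        have : (0 : ℝ) < ε * (((r : ℝ) + 1) * (n + 1)) := by positivity
        nlinarith
      exact_mod_cast h1
    obtain ⟨t, ht0, ht1, ht2⟩ := Int.Matrix.exists_ne_zero_int_vec_norm_le A
      (by rw [hcard, Fintype.card_fin]; exact hlt) (by rw [Fintype.card_fin]; exact hM0)
    rw [hcard, Fintype.card_fin] at ht2
    have hA : max 1 ‖A‖ ≤ (2 : ℝ) ^ (k * n + r) := by
      refine max_le (one_le_pow₀ one_le_two) ?_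
      rw [Matrix.norm_le_iff (by positivity)]
      intro i q
      have h1 : (k * (q.2 : ℕ) + (q.1 : ℕ)).choose (i : ℕ) ≤ 2 ^ (k * n + r) := by
        refine (Nat.choose_le_two_pow _ _).trans (Nat.pow_le_pow_right (by norm_num) ?_)
        have h2 : (q.2 : ℕ) ≤ n := by omega
        have h3 : (q.1 : ℕ) ≤ r := by omega
        have := Nat.mul_le_mul_left k h2
        omega
      show ‖(((k * (q.2 : ℕ) + (q.1 : ℕ)).choose (i : ℕ) : ℕ) : ℤ)‖ ≤ _
      rw [Int.norm_natCast]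
      exact_mod_cast h1
    have hb := siegel_bound r ε hε hε1 k n hk hn M hMle (max 1 ‖A‖) (le_max_left _ _) hA
    have htb : ‖t‖ ≤ Real.exp ((1 / ε * 10 * (r + 1)) * k * n) := ht2.trans hb
    let p : ℕ → ℕ → ℤ := fun j l =>
      if h : j < r + 1 ∧ l < n + 1 then t (⟨j, h.1⟩, ⟨l, h.2⟩) else 0
    have hp : ∀ (j : Fin (r + 1)) (l : Fin (n + 1)), p j l = t (j, l) := by
      intro j l
      simp only [p]
      rw [dif_pos ⟨j.2, l.2⟩]
    refine ⟨p, ?_, ?_, ?_⟩
    · obtain ⟨q, hq⟩ := Function.ne_iff.1 ht0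
      refine ⟨q.1, mem_range.2 q.1.2, q.2, mem_range.2 q.2.2, ?_⟩
      rw [hp]
      exact hq
    · intro j hj l hl
      rw [mem_range] at hj hl
      have h1 : p j l = t (⟨j, hj⟩, ⟨l, hl⟩) := hp ⟨j, hj⟩ ⟨l, hl⟩
      rw [h1]
      have h2 : ‖t (⟨j, hj⟩, ⟨l, hl⟩)‖ ≤ ‖t‖ := norm_le_pi_norm t _
      rw [Int.norm_eq_abs] at h2
      exact h2.trans htb
    · apply dvd_of_hasse
      intro i hi
      rw [hasse_Rpoly]
      have h1 := congrFun ht1 ⟨i, hi⟩
      rw [Matrix.mulVec, dotProduct, Fintype.sum_prod_type, Pi.zero_apply] at h1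
      rw [Finset.sum_range, ← h1]
      refine Finset.sum_congr rfl fun j _ => ?_
      rw [Finset.sum_range]
      refine Finset.sum_congr rfl fun l _ => ?_
      rw [hp, mul_comm]

end Pool.Agent.H98.ABCR
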