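import Pool.Agent.H98.ABCR.Stmts

/-! # ABCR: smooth radicals -/

set_option autoImplicit false

namespace Pool.Agent.H98.ABCR

open Finset Polynomial

private theorem rad_pos (n : ℕ) : 0 < rad n :=
  prod_pos fun _ hp => (Nat.prime_of_mem_primeFactors hp).pos

private theorem rad_mul {a b : ℕ} (h : a.Coprime b) : rad (a * b) = rad a * rad b := by
  unfold rad
  rw [h.primeFactors_mul, prod_union h.disjoint_primeFactors]

private theorem log_rad (n : ℕ) : Real.log (rad n) = ∑ p ∈ n.primeFactors, Real.log p := by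
  unfold rad
  rw [Nat.cast_prod, Real.log_prod]
  intro p hp
  exact_mod_cast (Nat.prime_of_mem_primeFactors hp).ne_zero

private theorem RR_eq (v : ℕ × ℕ) (h : IsTri v) : RR v = ∏ s : Fin 3, rad (coord v s) := by
  obtain ⟨h1, h2, h3⟩ := h
  have h4 : (v.1 * v.2).Coprime (v.1 + v.2) := by
    apply Nat.Coprime.mul_left
    · rw [Nat.coprime_self_add_right]; exact h3
    · rw [Nat.coprime_add_self_right]; exact h3.symm
  unfold RR nn
  rw [rad_mul h4, rad_mul h3, Fin.prod_univ_three]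
  rfl

private theorem RR_primeFactors (v : ℕ × ℕ) (h : IsTri v) (t : Fin 3) :
    (coord v t).primeFactors ⊆ (RR v).primeFactors := by
  have h0 : nn v ≠ 0 := by
    obtain ⟨h1, h2, _⟩ := h
    unfold nn
    positivity
  have h1 : (RR v).primeFactors = (nn v).primeFactors := by
    unfold RR rad
    exact Nat.primeFactors_prod fun p hp => Nat.prime_of_mem_primeFactors hp
  rw [h1]
  apply Nat.primeFactors_mono _ h0
  unfold nn coord
  fin_cases t
  · exact ⟨v.2 * (v.1 + v.2), by simp; ring⟩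
  · exact ⟨v.1 * (v.1 + v.2), by simp; ring⟩
  · exact ⟨v.1 * v.2, by simp; ring⟩

/-- polylogarithmic factors -/
private theorem polylog (C η : ℝ) (hC : 1 ≤ C) (hη : 0 < η) : ∃ D : ℝ, 1 ≤ D ∧ ∀ Z B : ℝ, 1 ≤ Z →
    1 ≤ B → Real.log B ≤ 2 * Real.log Z → (1 + Real.log B) ^ C ≤ D * Z ^ η := by
  have hC0 : 0 < C := by linarith
  set ε : ℝ := η / C with hε
  have hε0 : 0 < ε := div_pos hη hC0
  refine ⟨(1 + 2 / ε) ^ C, Real.one_le_rpow (by
    have : 0 ≤ 2 / ε := by positivity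
    linarith) (by linarith), fun Z B hZ hB hlog => ?_⟩
  have hZ0 : 0 < Z := by linarith
  have h1 : Real.log Z ≤ Z ^ ε / ε := Real.log_le_rpow_div hZ0.le hε0
  have h2 : 1 ≤ Z ^ ε := Real.one_le_rpow hZ hε0.le
  have h3 : 1 + Real.log B ≤ (1 + 2 / ε) * Z ^ ε := by
    have e1 : 2 * (Z ^ ε / ε) = 2 / ε * Z ^ ε := by ring
    have : 1 + Real.log B ≤ Z ^ ε + 2 / ε * Z ^ ε := by
      rw [← e1]; linarith
    linarith [this, add_mul 1 (2 / ε) (Z ^ ε), one_mul (Z ^ ε)]
  have h4 : 0 ≤ 1 + Real.log B := by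
    have := Real.log_nonneg hB
    linarith
  calc (1 + Real.log B) ^ C ≤ ((1 + 2 / ε) * Z ^ ε) ^ C :=
        Real.rpow_le_rpow h4 h3 hC0.le
    _ = (1 + 2 / ε) ^ C * Z ^ η := by
        rw [Real.mul_rpow (by positivity) (by positivity), ← Real.rpow_mul hZ0.le]
        congr 2
        rw [hε]
        field_simp

/-- the heavy set of primes of one coordinate -/
private theorem heavy_set (h2 : S_KNA) (δ : ℝ) (hδ0 : 0 ≤ δ) (hδ1 : δ ≤ 1) (Z Y : ℝ)
    (hZ : 1 ≤ Z) (hY : 1 ≤ Y) (v : ℕ × ℕ) (hv : IsTri v) (hR : (RR v : ℝ) ≤ Z)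
    (hp : ∀ p ∈ (RR v).primeFactors, (p : ℝ) ≤ Y) :
    ∃ t : Fin 3, ∃ K ⊆ (coord v t).primeFactors,
      Real.log (coord v t) - ∑ q ∈ K, ((coord v t).factorization q : ℝ) * Real.log q ≤
        (1 - δ) * Real.log ((v.1 : ℝ) + v.2) ∧
      (((∏ s ∈ univ.erase t, rad (coord v s)) * ∏ q ∈ K, q : ℕ) : ℝ) ≤
        Z ^ (2 / 3 + δ / 3) * Y := by
  obtain ⟨t, -, ht⟩ := exists_max_image (univ : Finset (Fin 3)) (fun s => rad (coord v s))
    univ_nonempty
  set n := coord v t with hn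
  have hn0 : 0 < n := by
    obtain ⟨h3, h4, _⟩ := hv
    rw [hn]
    unfold coord
    fin_cases t
    · exact h3
    · exact h4
    · show 0 < v.1 + v.2
      omega
  have hnc : n ≤ v.1 + v.2 := by
    rw [hn]
    unfold coord
    fin_cases t
    · simp
    · simp
    · simp
  have hg : ∀ i ∈ n.primeFactors, Real.log i ≤ Real.log Y := by
    intro i hi
    have h3 := hp i (RR_primeFactors v hv t hi)
    exact Real.log_le_log (by exact_mod_cast (Nat.prime_of_mem_primeFactors hi).pos) h3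
  have hlog0 : ∀ i ∈ n.primeFactors, 0 < Real.log i := by
    intro i hi
    exact Real.log_pos (by exact_mod_cast (Nat.prime_of_mem_primeFactors hi).one_lt)
  obtain ⟨K, hK1, hK2, hK3⟩ := h2 n.primeFactors (fun q => (n.factorization q : ℝ) * Real.log q)
    (fun q => Real.log q) δ (Real.log Y)
    (fun i hi => mul_nonneg (Nat.cast_nonneg _) (hlog0 i hi).le) hlog0 hδ0 hδ1
    (Real.log_nonneg hY) hg
  refine ⟨t, K, hK1, ?_, ?_⟩
  · have h3 : ∑ i ∈ n.primeFactors, (n.factorization i : ℝ) * Real.log i = Real.log n := by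
      rw [Real.log_nat_eq_sum_factorization, Finsupp.sum, Nat.support_factorization]
    rw [h3] at hK2
    have h4 : Real.log n ≤ Real.log ((v.1 : ℝ) + v.2) :=
      Real.log_le_log (by exact_mod_cast hn0) (by exact_mod_cast hnc)
    nlinarith
  · -- everything in logarithms
    have hρ0 : (0 : ℝ) < rad n := by exact_mod_cast rad_pos n
    have hP0 : (0 : ℝ) < ((∏ s ∈ univ.erase t, rad (coord v s) : ℕ) : ℝ) := by
      exact_mod_cast prod_pos fun s _ => rad_pos _
    have hK0 : (0 : ℝ) < ((∏ q ∈ K, q : ℕ) : ℝ) := by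
      exact_mod_cast prod_pos fun q hq => (Nat.prime_of_mem_primeFactors (hK1 hq)).pos
    have hRR : (RR v : ℝ) = (rad n : ℝ) * ((∏ s ∈ univ.erase t, rad (coord v s) : ℕ) : ℝ) := by
      rw [RR_eq v hv, ← mul_prod_erase univ (fun s => rad (coord v s)) (mem_univ t)]
      push_cast
      rfl
    have hR3 : (RR v : ℝ) ≤ (rad n : ℝ) ^ 3 := by
      have h5 : RR v ≤ (rad n) ^ 3 := by
        rw [RR_eq v hv]
        calc ∏ s : Fin 3, rad (coord v s) ≤ ∏ _s : Fin 3, rad n :=
              prod_le_prod' fun s _ => ht s (mem_univ s)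
          _ = (rad n) ^ 3 := by rw [prod_const, card_univ, Fintype.card_fin]
      exact_mod_cast h5
    have hR0 : (0 : ℝ) < RR v := by rw [hRR]; positivity
    have e1 : Real.log (RR v) = Real.log (rad n) +
        Real.log ((∏ s ∈ univ.erase t, rad (coord v s) : ℕ) : ℝ) := by
      rw [hRR, Real.log_mul hρ0.ne' hP0.ne']
    have e2 : Real.log (RR v) ≤ 3 * Real.log (rad n) := by
      have := Real.log_le_log hR0 hR3
      rwa [Real.log_pow, Nat.cast_ofNat] at this
    have e3 : Real.log (RR v) ≤ Real.log Z := Real.log_le_log hR0 hR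
    have e4 : Real.log ((∏ q ∈ K, q : ℕ) : ℝ) = ∑ q ∈ K, Real.log q := by
      rw [Nat.cast_prod, Real.log_prod]
      intro p hp
      exact_mod_cast (Nat.prime_of_mem_primeFactors (hK1 hp)).ne_zero
    have e5 : ∑ i ∈ n.primeFactors, Real.log i = Real.log (rad n) := (log_rad n).symm
    rw [e5] at hK3
    have hZ0 : 0 < Z := by linarith
    have hY0 : 0 < Y := by linarith
    have hB0 : 0 < Z ^ (2 / 3 + δ / 3) * Y := by positivity
    push_cast [Nat.cast_mul]
    have e6 : ((∏ s ∈ univ.erase t, rad (coord v s) : ℕ) : ℝ) * ((∏ q ∈ K, q : ℕ) : ℝ) ≤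
        Z ^ (2 / 3 + δ / 3) * Y := by
      rw [← Real.log_le_log_iff (by positivity) hB0, Real.log_mul hP0.ne' hK0.ne',
        Real.log_mul (by positivity) hY0.ne', Real.log_rpow hZ0, e4]
      have h7 : 0 ≤ (2 / 3 + δ / 3) * (Real.log Z - Real.log (RR v)) :=
        mul_nonneg (by linarith) (by linarith)
      nlinarith
    push_cast at e6
    exact e6

theorem smo_thm (h1 : S_CNT) (h2 : S_KNA) : S_SMO := by
  intro ε hε
  set δ : ℝ := min ε 1 with hδ
  have hδ0 : 0 < δ := lt_min hε one_pos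
  have hδ1 : δ ≤ 1 := min_le_right _ _
  have hδε : δ ≤ ε := min_le_left _ _
  obtain ⟨C, hC, hcnt⟩ := h1 δ hδ0 hδ1
  obtain ⟨D, hD, hpl⟩ := polylog C (ε - δ / 3) hC (by linarith)
  refine ⟨C * D, by nlinarith, fun Z Y F hZ hY hF => ?_⟩
  have hZ0 : 0 < Z := by linarith
  set Y' : ℝ := min Y Z with hY'
  have hY'1 : 1 ≤ Y' := le_min hY hZ
  have hY'Z : Y' ≤ Z := min_le_right _ _
  have hY'Y : Y' ≤ Y := min_le_left _ _
  set B : ℝ := Z ^ (2 / 3 + δ / 3) * Y' with hB
  have hZp : 1 ≤ Z ^ (2 / 3 + δ / 3) := Real.one_le_rpow hZ (by linarith)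
  have hB1 : 1 ≤ B := by nlinarith
  have hcount := hcnt B F hB1 (fun v hv => by
    obtain ⟨h3, h4, h5⟩ := hF v hv
    refine ⟨h3, heavy_set h2 δ hδ0.le hδ1 Z Y' hZ hY'1 v h3 h4 fun p hp => le_min (h5 p hp) ?_⟩
    have h6 : p ≤ RR v := Nat.le_of_mem_primeFactors hp
    exact le_trans (by exact_mod_cast h6) h4)
  have hlogB : Real.log B ≤ 2 * Real.log Z := by
    rw [hB, Real.log_mul (by positivity) (by linarith), Real.log_rpow hZ0]
    have h3 : Real.log Y' ≤ Real.log Z := Real.log_le_log (by linarith) hY'Z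
    have h4 : 0 ≤ Real.log Z := Real.log_nonneg hZ
    nlinarith
  have h5 := hpl Z B hZ hB1 hlogB
  have hCB : 0 ≤ C * B := by positivity
  calc (F.card : ℝ) ≤ C * B * (1 + Real.log B) ^ C := hcount
    _ ≤ C * B * (D * Z ^ (ε - δ / 3)) := mul_le_mul_of_nonneg_left h5 hCB
    _ = C * D * (Z ^ (2 / 3 + δ / 3) * Z ^ (ε - δ / 3)) * Y' := by rw [hB]; ring
    _ = C * D * Z ^ (2 / 3 + ε) * Y' := by
        rw [← Real.rpow_add hZ0]
        congr 3
        ring
    _ ≤ C * D * Z ^ (2 / 3 + ε) * Y :=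
        mul_le_mul_of_nonneg_left hY'Y (by positivity)

end Pool.Agent.H98.ABCR
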