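import Pool.Agent.H98.ABCR.Stmts

/-! # ABCR: the uniform engine for triples -/

set_option autoImplicit false
set_option linter.unusedSimpArgs false
set_option linter.unusedVariables false

namespace Pool.Agent.H98.ABCR

open Finset Polynomial

/-- the pair `(x, y)` with `x + y` the special coordinate -/
private def pr (t : Fin 3) (v : ℕ × ℕ) : ℤ × ℤ :=
  match t with
  | 0 => (-(v.2 : ℤ), (v.1 : ℤ) + v.2)
  | 1 => (-(v.1 : ℤ), (v.1 : ℤ) + v.2)
  | 2 => ((v.1 : ℤ), (v.2 : ℤ))

private theorem pr_injective (t : Fin 3) : Function.Injective (pr t) := by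
  intro v w h
  have h1 := congrArg Prod.fst h
  have h2 := congrArg Prod.snd h
  fin_cases t
  · simp only [pr, Fin.zero_eta] at h1 h2
    ext <;> omega
  · simp only [pr, Fin.mk_one] at h1 h2
    ext <;> omega
  · simp only [pr, Fin.reduceFinMk] at h1 h2
    ext <;> omega

private theorem heavy_one (S : Finset ℕ) (x y : ℤ) (h0 : x + y ≠ 0)
    (hS : (x + y).natAbs.primeFactors ⊆ S) : Heavy 1 S x y := by
  unfold Heavy slog vv
  have h1 : |((x + y : ℤ) : ℝ)| = ((x + y).natAbs : ℝ) := by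
    rw [Nat.cast_natAbs, Int.cast_abs]
  rw [h1, Real.log_nat_eq_sum_factorization]
  have h2 : ((x + y).natAbs.factorization.sum fun p t => (t : ℝ) * Real.log p) =
      ∑ q ∈ S, ((x + y).natAbs.factorization q : ℝ) * Real.log q := by
    rw [Finsupp.sum]
    rw [Nat.support_factorization]
    refine Finset.sum_subset hS fun q _ hq => ?_
    have : (x + y).natAbs.factorization q = 0 := by
      rw [← Finsupp.notMem_support_iff, Nat.support_factorization]
      exact hq
    rw [this, Nat.cast_zero, zero_mul]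
  rw [h2]
  simp

private theorem lh_pr (t : Fin 3) (v : ℕ × ℕ) :
    lh (pr t v).1 (pr t v).2 = Real.log ((v.1 : ℝ) + v.2) := by
  unfold lh ht
  have key : max (max (pr t v).1.natAbs (pr t v).2.natAbs) ((pr t v).1 + (pr t v).2).natAbs =
      v.1 + v.2 := by
    fin_cases t
    · simp only [pr, Fin.zero_eta]; omega
    · simp only [pr, Fin.mk_one]; omega
    · simp only [pr, Fin.reduceFinMk]; omega
  rw [key, Nat.cast_add]

private theorem pr_sum (t : Fin 3) (v : ℕ × ℕ) :
    ((pr t v).1 + (pr t v).2).natAbs = coord v t := by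
  fin_cases t
  · simp only [pr, Fin.zero_eta, coord, Matrix.cons_val_zero]; omega
  · simp only [pr, Fin.mk_one, coord, Matrix.cons_val_one, Matrix.cons_val_zero]; omega
  · simp only [pr, Fin.reduceFinMk, coord, Matrix.cons_val]; omega

private theorem pr_sol (t : Fin 3) (v : ℕ × ℕ) (h : IsTri v) : IsSol (pr t v).1 (pr t v).2 := by
  obtain ⟨h1, h2, h3⟩ := h
  have hc : IsCoprime (v.1 : ℤ) (v.2 : ℤ) := Nat.isCoprime_iff_coprime.2 h3
  fin_cases t
  · simp only [pr, Fin.zero_eta]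
    refine ⟨by omega, by omega, by omega, ?_⟩
    rw [IsCoprime.neg_left_iff]
    have := hc.symm.add_mul_left_right 1
    rwa [mul_one] at this
  · simp only [pr, Fin.mk_one]
    refine ⟨by omega, by omega, by omega, ?_⟩
    rw [IsCoprime.neg_left_iff]
    have := hc.add_mul_left_right 1
    rw [mul_one, add_comm] at this
    exact this
  · simp only [pr, Fin.reduceFinMk]
    exact ⟨by omega, by omega, by omega, hc⟩

/-- index of the coordinate of `x` -/
private def ix (t : Fin 3) : Fin 3 :=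
  match t with
  | 0 => 1
  | 1 => 0
  | 2 => 0

/-- index of the coordinate of `y` -/
private def iy (t : Fin 3) : Fin 3 :=
  match t with
  | 0 => 2
  | 1 => 2
  | 2 => 1

private theorem pr_fst (t : Fin 3) (v : ℕ × ℕ) (k : ℕ) (hk : Odd k) (a U : ℕ)
    (h : coord v (ix t) = a * U ^ k) : ∃ U' : ℤ, (pr t v).1 = (a : ℤ) * U' ^ k := by
  have h' : ((coord v (ix t) : ℕ) : ℤ) = (a : ℤ) * (U : ℤ) ^ k := by
    rw [h]; push_cast; ring
  fin_cases t
  · refine ⟨-(U : ℤ), ?_⟩
    rw [hk.neg_pow, mul_neg, ← h']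
    rfl
  · refine ⟨-(U : ℤ), ?_⟩
    rw [hk.neg_pow, mul_neg, ← h']
    rfl
  · refine ⟨(U : ℤ), ?_⟩
    rw [← h']
    rfl

private theorem pr_snd (t : Fin 3) (v : ℕ × ℕ) (k : ℕ) (a U : ℕ)
    (h : coord v (iy t) = a * U ^ k) : ∃ U' : ℤ, (pr t v).2 = (a : ℤ) * U' ^ k := by
  have h' : ((coord v (iy t) : ℕ) : ℤ) = (a : ℤ) * (U : ℤ) ^ k := by
    rw [h]; push_cast; ring
  refine ⟨(U : ℤ), ?_⟩
  rw [← h']
  fin_cases t
  · simp only [pr, Fin.zero_eta, coord, iy, Matrix.cons_val]; push_cast; rfl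
  · simp only [pr, Fin.mk_one, coord, iy, Matrix.cons_val]; push_cast; rfl
  · rfl

theorem tru_thm (h : S_UENG) : S_TRU := by
  obtain ⟨k0, C, hC, hU⟩ := h 1 one_pos le_rfl
  refine ⟨k0, C, hC, ?_⟩
  intro k S F t α hk1 hk2 hk3 hS hα hF
  have hix : ix t ≠ t := by fin_cases t <;> decide
  have hiy : iy t ≠ t := by fin_cases t <;> decide
  have h1 := hU k S (α (ix t)) (α (iy t)) (F.image (pr t)) hk1 hk2 hk3 hS
    (by exact_mod_cast hα _) (by exact_mod_cast hα _) ?_
  · rwa [card_image_of_injective F (pr_injective t)] at h1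
  · intro w hw
    obtain ⟨v, hv, rfl⟩ := mem_image.1 hw
    obtain ⟨h2, h3, h4, h5⟩ := hF v hv
    obtain ⟨U, hU'⟩ := h4 _ hix
    obtain ⟨V, hV'⟩ := h4 _ hiy
    refine ⟨pr_sol t v h2, pr_fst t v k hk2 _ U hU', pr_snd t v k _ V hV', ?_, ?_⟩
    · refine heavy_one S _ _ (pr_sol t v h2).z0 ?_
      rw [pr_sum]
      exact h3
    · rw [lh_pr]
      exact h5

end Pool.Agent.H98.ABCR
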