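import Pool.Agent.H98.ABCR.Stmts

/-! # ABCR: Wronskians of polynomials of distinct degrees -/

set_option autoImplicit false

namespace Pool.Agent.H98.ABCR

open Finset Polynomial

/-- coefficient of a product at the sum of the degree bounds -/
private theorem coeff_prod_sum {ι : Type} (s : Finset ι) (g : ι → ℝ[X]) (d : ι → ℕ)
    (h : ∀ a ∈ s, (g a).natDegree ≤ d a) :
    (∏ a ∈ s, g a).natDegree ≤ ∑ a ∈ s, d a ∧
      (∏ a ∈ s, g a).coeff (∑ a ∈ s, d a) = ∏ a ∈ s, (g a).coeff (d a) := by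
  classical
  induction s using Finset.induction_on with
  | empty => simp
  | insert a s ha ih =>
    obtain ⟨h1, h2⟩ := ih fun b hb => h b (mem_insert_of_mem hb)
    have h3 := h a (mem_insert_self a s)
    rw [prod_insert ha, sum_insert ha, prod_insert ha]
    refine ⟨natDegree_mul_le.trans (Nat.add_le_add h3 h1), ?_⟩
    rw [coeff_mul_add_eq_of_natDegree_le h3 h1, h2]

/-- the entries after multiplication by `X ^ i` -/
private theorem entry_coeff (f : ℝ[X]) (i d : ℕ) :
    (X ^ i * hasseDeriv i f).coeff d = (d.choose i : ℝ) * f.coeff d := by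
  rw [coeff_X_pow_mul']
  split_ifs with h
  · rw [hasseDeriv_coeff, Nat.sub_add_cancel h]
  · rw [Nat.choose_eq_zero_of_lt (not_le.1 h), Nat.cast_zero, zero_mul]

private theorem entry_natDegree (f : ℝ[X]) (i : ℕ) :
    (X ^ i * hasseDeriv i f).natDegree ≤ f.natDegree := by
  rw [natDegree_le_iff_coeff_eq_zero]
  intro m hm
  rw [entry_coeff, coeff_eq_zero_of_natDegree_lt hm, mul_zero]

private theorem det_choose_ne_zero {q : ℕ} (d : Fin q → ℕ) (hd : Function.Injective d) :
    (Matrix.of fun i a : Fin q => ((d a).choose (i : ℕ) : ℝ)).det ≠ 0 := by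
  have h1 : (Matrix.vandermonde (fun a => (d a : ℝ))).det ≠ 0 := by
    rw [Matrix.det_vandermonde_ne_zero_iff]
    intro a b hab
    have hab' : (d a : ℝ) = (d b : ℝ) := hab
    exact hd (by exact_mod_cast hab')
  rw [Matrix.det_eval_matrixOfPolynomials_eq_det_vandermonde (fun a => (d a : ℝ))
    (fun i : Fin q => descPochhammer ℝ (i : ℕ)) (fun i => descPochhammer_natDegree ℝ _)
    (fun i => monic_descPochhammer ℝ _)] at h1
  have h2 : (Matrix.of fun i j : Fin q => (descPochhammer ℝ (j : ℕ)).eval ((d i : ℕ) : ℝ)) =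
      Matrix.of fun i j : Fin q => ((Nat.factorial (j : ℕ) : ℕ) : ℝ) *
        (Matrix.of fun i a : Fin q => ((d a).choose (i : ℕ) : ℝ)).transpose i j := by
    ext i j
    simp only [Matrix.of_apply, Matrix.transpose_apply]
    rw [descPochhammer_eval_eq_descFactorial, Nat.descFactorial_eq_factorial_mul_choose]
    push_cast
    rfl
  rw [h2, Matrix.det_mul_row, Matrix.det_transpose] at h1
  exact right_ne_zero_of_mul h1

theorem wnz_thm : S_WNZ := by
  intro q f hf hinj hw
  let d : Fin q → ℕ := fun a => (f a).natDegree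
  have h1 : (Matrix.of fun i a : Fin q => (X : ℝ[X]) ^ (i : ℕ) *
      (Matrix.of fun i a : Fin q => hasseDeriv (i : ℕ) (f a)) i a).det = 0 := by
    rw [Matrix.det_mul_column]
    have : (Matrix.of fun i a : Fin q => hasseDeriv (i : ℕ) (f a)).det = 0 := hw
    rw [this, mul_zero]
  rw [Matrix.det_apply'] at h1
  have h2 := congrArg (fun P : ℝ[X] => P.coeff (∑ a, d a)) h1
  simp only [finsetSum_coeff, coeff_zero] at h2
  have h3 : ∀ σ : Equiv.Perm (Fin q), ((((Equiv.Perm.sign σ : ℤˣ) : ℤ) : ℝ[X]) *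
      ∏ a, (Matrix.of fun i a : Fin q =>
      (X : ℝ[X]) ^ (i : ℕ) * (Matrix.of fun i a : Fin q => hasseDeriv (i : ℕ) (f a)) i a)
        (σ a) a).coeff (∑ a, d a) =
      ((((Equiv.Perm.sign σ : ℤˣ) : ℤ) : ℝ) * ∏ a,
        (Matrix.of fun i a : Fin q => ((d a).choose (i : ℕ) : ℝ)) (σ a) a) *
          ∏ a, (f a).leadingCoeff := by
    intro σ
    have h4 := (coeff_prod_sum univ (fun a => (X : ℝ[X]) ^ ((σ a : Fin q) : ℕ) *
      hasseDeriv ((σ a : Fin q) : ℕ) (f a)) d (fun a _ => entry_natDegree _ _)).2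
    have h5 : ∏ a, ((X : ℝ[X]) ^ ((σ a : Fin q) : ℕ) *
        hasseDeriv ((σ a : Fin q) : ℕ) (f a)).coeff (d a) =
        (∏ a, (Matrix.of fun i a : Fin q => ((d a).choose (i : ℕ) : ℝ)) (σ a) a) *
          ∏ a, (f a).leadingCoeff := by
      rw [← prod_mul_distrib]
      refine prod_congr rfl fun a _ => ?_
      rw [entry_coeff]
      rfl
    rw [coeff_intCast_mul, mul_assoc, ← h5, ← h4]
    rfl
  rw [sum_congr rfl fun σ _ => h3 σ, ← sum_mul, ← Matrix.det_apply'] at h2
  rcases mul_eq_zero.1 h2 with h | h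
  · exact det_choose_ne_zero d hinj h
  · rw [prod_eq_zero_iff] at h
    obtain ⟨a, _, ha⟩ := h
    exact hf a (leadingCoeff_eq_zero.1 ha)

end Pool.Agent.H98.ABCR
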